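import Pool.Agent.T9h23.BH.A6

/-! # Polynomials near `X`: local densities -/

set_option autoImplicit false

namespace T9h23.Nx

open Finset Polynomial
open Pool.Agent.H373R2.T7 Pool.Agent.T9h23.Cor Pool.Agent.T9h23.BH
open scoped Classical Nat

/-- the positions `y` in `(0, k]` such that `m + y` has no prime factor `≤ k` -/
noncomputable def surv (k m : ℕ) : Finset ℕ := (Icc 1 k).filter (fun y => ∀ p : ℕ, p.Prime → p ≤ k → ¬ p ∣ m + y)

theorem surv_card_le (k m : ℕ) : (surv k m).card ≤ k := by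
  unfold surv
  refine (card_filter_le _ _).trans ?_
  simp

/-- the fixed part -/
noncomputable def PP (W d : ℕ) : ℤ[X] := X + C (W : ℤ) * X ^ (d + 1)

/-- the polynomials `k ! X + m + b` -/
noncomputable def gg (k m b : ℕ) : ℤ[X] := C ((k ! : ℕ) : ℤ) * X + C ((m + b : ℕ) : ℤ)

noncomputable def GG (k m : ℕ) : Finset ℤ[X] := (surv k m).image (gg k m)

theorem gg_eval (k m b : ℕ) (t : ℤ) : (gg k m b).eval t = (k ! : ℕ) * t + ((m + b : ℕ) : ℤ) := by
  unfold gg
  simp

theorem gg_inj (k m : ℕ) : Function.Injective (gg k m) := by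
  intro b b' h
  have h1 := congrArg (fun q : ℤ[X] => q.eval 0) h
  simp only [gg_eval, mul_zero, zero_add] at h1
  have h2 : m + b = m + b' := by exact_mod_cast h1
  omega

theorem GG_card (k m : ℕ) : (GG k m).card = (surv k m).card := card_image_of_injective _ (gg_inj k m)

/-- the value -/
def val (W : ℕ) {d : ℕ} (a : Fin (d + 1) → ℤ) (t : ℤ) : ℤ := t + W * (t ^ (d + 1) + ∑ i : Fin (d + 1), a i * t ^ (i : ℕ))

/-- the multiples -/
def mul' (W : ℕ) {d : ℕ} (a : Fin (d + 1) → ℤ) : Fin (d + 1) → ℤ := fun i => W * a i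

theorem hpol_val (W : ℕ) {d : ℕ} (a : Fin (d + 1) → ℤ) (t : ℤ) : (hpol (PP W d) (mul' W a)).eval t = val W a t := by
  rw [hpol_eval]
  unfold fv PP val mul'
  simp only [eval_add, eval_X, eval_mul, eval_C, eval_pow]
  rw [mul_add, Finset.mul_sum]
  have : ∑ i : Fin (d + 1), (W : ℤ) * a i * t ^ (i : ℕ) = ∑ i : Fin (d + 1), (W : ℤ) * (a i * t ^ (i : ℕ)) :=
    Finset.sum_congr rfl fun i _ => by ring
  rw [this]
  ring

theorem hpol_form (W : ℕ) {d : ℕ} (a : Fin (d + 1) → ℤ) : hpol (PP W d) (mul' W a) =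
    X + C (W : ℤ) * (X ^ (d + 1) + ∑ i : Fin (d + 1), C (a i) * X ^ (i : ℕ)) := by
  unfold hpol PP mul'
  rw [mul_add, Finset.mul_sum, add_assoc]
  congr 2
  refine Finset.sum_congr rfl fun i _ => ?_
  rw [C_mul, mul_assoc]

theorem val_dvd (W : ℕ) {d : ℕ} (a : Fin (d + 1) → ℤ) (t : ℤ) (p : ℤ) (hp : p ∣ (W : ℤ)) : p ∣ val W a t ↔ p ∣ t := by
  unfold val
  have h : p ∣ (W : ℤ) * (t ^ (d + 1) + ∑ i : Fin (d + 1), a i * t ^ (i : ℕ)) := Dvd.dvd.mul_right hp _
  exact (Int.dvd_add_left h)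

/-- degree -/
theorem hpol_deg (W : ℕ) {d : ℕ} (a : Fin (d + 1) → ℤ) : (hpol (PP W d) (mul' W a)).natDegree ≤ d + 1 := by
  rw [hpol_form]
  refine natDegree_add_le_of_degree_le ?_ ?_
  · rw [natDegree_X]; omega
  · refine (natDegree_C_mul_le _ _).trans ?_
    refine natDegree_add_le_of_degree_le ?_ ?_
    · rw [natDegree_X_pow]
    · refine natDegree_sum_le_of_forall_le _ _ fun i _ => ?_
      refine (natDegree_C_mul_le _ _).trans ?_
      rw [natDegree_X_pow]
      omega

/-- modulo `p` -/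
theorem hpol_map (W : ℕ) {d : ℕ} (hd : 1 ≤ d) (a : Fin (d + 1) → ℤ) (p : ℕ) [Fact p.Prime] :
    ((hpol (PP W d) (mul' W a)).map (Int.castRingHom (ZMod p))) ≠ 0 ∧
    ((hpol (PP W d) (mul' W a)).map (Int.castRingHom (ZMod p))).natDegree ≤ (if p ∣ W then 1 else d + 1) := by
  by_cases h : p ∣ W
  · have h1 : (hpol (PP W d) (mul' W a)).map (Int.castRingHom (ZMod p)) = X := by
      rw [hpol_form, Polynomial.map_add, Polynomial.map_mul, map_X, map_C]
      have h2 : (Int.castRingHom (ZMod p)) (W : ℤ) = 0 := by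
        simp only [eq_intCast, Int.cast_natCast]
        exact (ZMod.natCast_eq_zero_iff _ _).2 h
      rw [h2, C_0, zero_mul, add_zero]
    rw [h1, if_pos h]
    exact ⟨X_ne_zero, natDegree_X_le⟩
  · rw [if_neg h]
    refine ⟨?_, (natDegree_map_le).trans (hpol_deg W a)⟩
    intro h0
    have h1 : ((hpol (PP W d) (mul' W a)).map (Int.castRingHom (ZMod p))).coeff (d + 1) = 0 := by rw [h0, coeff_zero]
    rw [coeff_map, hpol_form, coeff_add, coeff_C_mul, coeff_add, coeff_X_pow, if_pos rfl, coeff_X,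
      if_neg (by omega)] at h1
    have h2 : (∑ i : Fin (d + 1), C (a i) * (X : ℤ[X]) ^ (i : ℕ)).coeff (d + 1) = 0 := by
      rw [finsetSum_coeff]
      refine Finset.sum_eq_zero fun i _ => ?_
      rw [coeff_C_mul, coeff_X_pow, if_neg (by omega), mul_zero]
    rw [h2, zero_add, add_zero, mul_one] at h1
    apply h
    simp only [eq_intCast, Int.cast_natCast] at h1
    exact (ZMod.natCast_eq_zero_iff _ _).1 h1

/-- the product of the system -/
noncomputable def QQ (W k m : ℕ) {d : ℕ} (a : Fin (d + 1) → ℤ) : ℤ[X] :=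
  ∏ g ∈ GG k m, (hpol (PP W d) (mul' W a)).comp g

theorem qq_eq (W k m : ℕ) {d : ℕ} (a : Fin (d + 1) → ℤ) :
    qq (r := 1) (dd := fun _ => d) (fun _ => GG k m) (fun _ => PP W d) (fun _ => mul' W a) = QQ W k m a := by
  unfold qq QQ
  rw [Fin.prod_univ_one]

theorem QQ_eval (W k m : ℕ) {d : ℕ} (a : Fin (d + 1) → ℤ) (n : ℤ) :
    (QQ W k m a).eval n = ∏ b ∈ surv k m, val W a ((k ! : ℕ) * n + ((m + b : ℕ) : ℤ)) := by
  unfold QQ GG
  rw [Finset.prod_image (fun x _ y _ h => gg_inj k m h), eval_prod]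
  refine Finset.prod_congr rfl fun b _ => ?_
  rw [eval_comp, gg_eval, hpol_val]

/-- **All local densities are less than one.** -/
theorem om_lt (W k m : ℕ) {d : ℕ} (hd : 1 ≤ d) (a : Fin (d + 1) → ℤ)
    (hW : ∀ p : ℕ, p.Prime → p ≤ (d + 1) * k → p ∣ W) (p : ℕ) (hp : p.Prime) : om (QQ W k m a) p < p := by
  have hfact : Fact p.Prime := ⟨hp⟩
  suffices hex : ∃ n : ℕ, n < p ∧ ¬ (p : ℤ) ∣ (QQ W k m a).eval (n : ℤ) by
    obtain ⟨n, hn, hnd⟩ := hex
    unfold om
    calc _ < (range p).card := by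
          apply Finset.card_lt_card
          rw [Finset.ssubset_iff_of_subset (filter_subset _ _)]
          exact ⟨n, mem_range.2 hn, fun h => hnd (mem_filter.1 h).2⟩
      _ = p := card_range p
  rcases le_or_gt p k with hk | hk
  · have hpW : (p : ℤ) ∣ (W : ℤ) := by
      exact_mod_cast hW p hp (hk.trans (Nat.le_mul_of_pos_left k (by omega)))
    refine ⟨0, hp.pos, ?_⟩
    rw [QQ_eval]
    intro h
    rw [Prime.dvd_finset_prod_iff (Nat.prime_iff_prime_int.1 hp)] at h
    obtain ⟨b, hb, hdvd⟩ := h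
    rw [val_dvd W a _ _ hpW, Nat.cast_zero, mul_zero, zero_add] at hdvd
    unfold surv at hb
    rw [mem_filter] at hb
    exact hb.2 p hp hk (by exact_mod_cast hdvd)
  · obtain ⟨hne, hdeg⟩ := hpol_map W hd a p
    set F := (hpol (PP W d) (mul' W a)).map (Int.castRingHom (ZMod p)) with hF
    have hkf : ((k ! : ℕ) : ZMod p) ≠ 0 := by
      intro h
      rw [ZMod.natCast_eq_zero_iff, hp.dvd_factorial] at h
      omega
    have hgm : ∀ g ∈ GG k m, (g.map (Int.castRingHom (ZMod p))).natDegree = 1 := by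
      intro g hg
      unfold GG at hg
      rw [mem_image] at hg
      obtain ⟨b, _, rfl⟩ := hg
      unfold gg
      rw [Polynomial.map_add, Polynomial.map_mul, map_X, map_C, map_C]
      refine natDegree_linear ?_
      simpa using hkf
    have hcm : ∀ g ∈ GG k m, (((hpol (PP W d) (mul' W a)).comp g).map (Int.castRingHom (ZMod p))) ≠ 0 ∧
        (((hpol (PP W d) (mul' W a)).comp g).map (Int.castRingHom (ZMod p))).natDegree ≤ (if p ∣ W then 1 else d + 1) := by
      intro g hg
      rw [map_comp, ← hF]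
      have h1 := hgm g hg
      constructor
      · intro h0
        have h2 := leadingCoeff_comp (p := F) (q := g.map (Int.castRingHom (ZMod p))) (by omega)
        rw [h0, leadingCoeff_zero] at h2
        have h3 : F.leadingCoeff ≠ 0 := leadingCoeff_ne_zero.2 hne
        have h4 : (g.map (Int.castRingHom (ZMod p))).leadingCoeff ≠ 0 := by
          rw [leadingCoeff_ne_zero]
          intro h5
          rw [h5, natDegree_zero] at h1
          omega
        exact mul_ne_zero h3 (pow_ne_zero _ h4) h2.symm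
      · rw [natDegree_comp, h1, mul_one]
        exact hdeg
    have hQm : (QQ W k m a).map (Int.castRingHom (ZMod p)) =
        ∏ g ∈ GG k m, ((hpol (PP W d) (mul' W a)).comp g).map (Int.castRingHom (ZMod p)) := by
      unfold QQ
      rw [Polynomial.map_prod]
    have hQ0 : (QQ W k m a).map (Int.castRingHom (ZMod p)) ≠ 0 := by
      rw [hQm, Finset.prod_ne_zero_iff]
      exact fun g hg => (hcm g hg).1
    have hQd : ((QQ W k m a).map (Int.castRingHom (ZMod p))).natDegree < p := by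
      rw [hQm]
      refine lt_of_le_of_lt (natDegree_prod_le _ _) ?_
      refine lt_of_le_of_lt (Finset.sum_le_card_nsmul _ _ _ fun g hg => (hcm g hg).2) ?_
      rw [smul_eq_mul, GG_card]
      have h1 := surv_card_le k m
      split_ifs with h2
      · omega
      · have h3 : (d + 1) * k < p := by
          by_contra hcon
          exact h2 (hW p hp (by omega))
        calc (surv k m).card * (d + 1) ≤ k * (d + 1) := Nat.mul_le_mul_right _ h1
          _ = (d + 1) * k := mul_comm _ _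
          _ < p := h3
    obtain ⟨x, hx⟩ := exists_eval_ne_zero_of_natDegree_lt_card _ hQ0 (by
      rw [Cardinal.mk_fintype, ZMod.card]
      exact_mod_cast hQd)
    refine ⟨x.val, ZMod.val_lt x, ?_⟩
    intro h
    apply hx
    have h1 : (((QQ W k m a).eval ((x.val : ℕ) : ℤ) : ℤ) : ZMod p) = 0 := (ZMod.intCast_zmod_eq_zero_iff_dvd _ _).2 h
    have h2 : ((QQ W k m a).map (Int.castRingHom (ZMod p))).eval (((x.val : ℕ) : ℤ) : ZMod p) =
        (((QQ W k m a).eval ((x.val : ℕ) : ℤ) : ℤ) : ZMod p) := by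
      rw [eval_intCast_map]
      rfl
    rw [h1] at h2
    have h3 : (((x.val : ℕ) : ℤ) : ZMod p) = x := by
      rw [Int.cast_natCast, ZMod.natCast_val, ZMod.cast_id]
    rw [h3] at h2
    exact h2

theorem om_le' (W k m : ℕ) {d : ℕ} (hd : 1 ≤ d) (a : Fin (d + 1) → ℤ)
    (hW : ∀ p : ℕ, p.Prime → p ≤ (d + 1) * k → p ∣ W) (p : ℕ) (hp : p.Prime) : om (QQ W k m a) p ≤ (d + 1) * k := by
  refine (om_le_deg _ hp (om_lt W k m hd a hW p hp)).trans ?_
  unfold QQ
  refine (natDegree_prod_le _ _).trans ?_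
  refine (Finset.sum_le_card_nsmul _ _ (d + 1) fun g hg => ?_).trans ?_
  · refine (natDegree_comp_le).trans ?_
    have h1 : g.natDegree ≤ 1 := by
      unfold GG at hg
      rw [mem_image] at hg
      obtain ⟨b, _, rfl⟩ := hg
      unfold gg
      exact natDegree_linear_le
    calc _ ≤ (d + 1) * 1 := Nat.mul_le_mul (hpol_deg W a) h1
      _ = d + 1 := mul_one _
  · rw [smul_eq_mul, GG_card, mul_comm]
    exact Nat.mul_le_mul_left _ (surv_card_le k m)

end T9h23.Nx
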