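import Pool.Agent.T9h23.Nx.N1
import Pool.Agent.T9h23.Cor.Loc1

/-! # Polynomials near `X`: a lower bound for the constant -/

set_option autoImplicit false

namespace T9h23.Nx

open Finset Polynomial
open Pool.Agent.H373R2.T7 Pool.Agent.T9h23.Cor Pool.Agent.T9h23.BH
open scoped Classical Nat

theorem pow_ineq (M : ℕ) (x : ℝ) (hx : 0 ≤ x) (hx1 : x ≤ 1) (h : 2 * M * x ≤ 1) : (1 - x) ^ (2 * M) ≤ 1 - M * x := by
  have h1 : 1 + ((2 * M : ℕ) : ℝ) * x ≤ (1 + x) ^ (2 * M) := one_add_mul_le_pow (by linarith) _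
  have h2 : (1 - x) ^ (2 * M) * (1 + x) ^ (2 * M) ≤ 1 := by
    rw [← mul_pow]
    apply pow_le_one₀
    · nlinarith
    · nlinarith
  obtain ⟨u, hu⟩ : ∃ u : ℝ, u = (1 - x) ^ (2 * M) := ⟨_, rfl⟩
  have hu0 : 0 ≤ u := by rw [hu]; exact pow_nonneg (by linarith) _
  rw [← hu] at h2 ⊢
  obtain ⟨t, ht⟩ : ∃ t : ℝ, t = 2 * M * x := ⟨_, rfl⟩
  have ht0 : 0 ≤ t := by rw [ht]; positivity
  have h3 : u * (1 + t) ≤ 1 := by
    refine le_trans ?_ h2
    apply mul_le_mul_of_nonneg_left _ hu0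
    rw [ht]
    push_cast at h1
    exact h1
  have h4 : (M : ℝ) * x = t / 2 := by rw [ht]; ring
  rw [h4]
  rw [← ht] at h
  have h5 : 1 ≤ (1 - t / 2) * (1 + t) := by nlinarith
  have h6 : u * (1 + t) ≤ (1 - t / 2) * (1 + t) := h3.trans h5
  exact le_of_mul_le_mul_right h6 (by linarith)

theorem Dn_low (q : ℤ[X]) (M : ℕ) (hM : 1 ≤ M) (h1 : ∀ p : ℕ, p.Prime → om q p < p)
    (h2 : ∀ p : ℕ, p.Prime → om q p ≤ M) (z : ℕ) :
    ((2 * (M : ℝ))⁻¹) ^ (2 * M) * (Vz z) ^ (2 * M) ≤ Dn q z := by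
  have hMr : (1 : ℝ) ≤ M := by exact_mod_cast hM
  obtain ⟨v, hv⟩ : ∃ v : ℝ, v = (2 * (M : ℝ))⁻¹ := ⟨_, rfl⟩
  have hv0 : 0 < v := by rw [hv]; positivity
  have hv1 : v ≤ 1 := by rw [hv]; exact inv_le_one_of_one_le₀ (by linarith)
  rw [← hv]
  have key : ∀ p ∈ pz z, (if p ≤ 2 * M then v else 1) * (1 - 1 / (p : ℝ)) ^ (2 * M) ≤ 1 - (om q p : ℝ) / p := by
    intro p hp
    have hpp : p.Prime := (mem_filter.1 hp).2
    have hp2 : (2 : ℝ) ≤ p := by exact_mod_cast hpp.two_le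
    have hp0 : (0 : ℝ) < p := by linarith
    have hx0 : 0 ≤ 1 / (p : ℝ) := by positivity
    have hx1 : 1 / (p : ℝ) ≤ 1 := by rw [div_le_one hp0]; linarith
    split_ifs with h
    · have h3 : (1 - 1 / (p : ℝ)) ^ (2 * M) ≤ 1 := pow_le_one₀ (by linarith) (by linarith)
      have h4 : (om q p : ℝ) + 1 ≤ p := by exact_mod_cast h1 p hpp
      have h5 : 1 / (p : ℝ) ≤ 1 - (om q p : ℝ) / p := by
        rw [le_sub_iff_add_le, ← add_div, div_le_one hp0]
        linarith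
      have h6 : v ≤ 1 / (p : ℝ) := by
        rw [hv, one_div, inv_le_inv₀ (by positivity) hp0]
        exact_mod_cast h
      calc v * (1 - 1 / (p : ℝ)) ^ (2 * M) ≤ v * 1 := mul_le_mul_of_nonneg_left h3 hv0.le
        _ = v := mul_one v
        _ ≤ _ := h6.trans h5
    · rw [one_mul]
      have h3 : 2 * (M : ℝ) * (1 / (p : ℝ)) ≤ 1 := by
        rw [mul_one_div, div_le_one hp0]
        have : 2 * M ≤ p := by omega
        exact_mod_cast this
      refine (pow_ineq M (1 / p) hx0 hx1 h3).trans ?_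
      have h4 : (om q p : ℝ) / p ≤ M * (1 / p) := by
        rw [mul_one_div]
        have : (om q p : ℝ) ≤ M := by exact_mod_cast h2 p hpp
        gcongr
      linarith
  have h3 : ∏ p ∈ pz z, ((if p ≤ 2 * M then v else 1) * (1 - 1 / (p : ℝ)) ^ (2 * M)) ≤ Dn q z := by
    unfold Dn
    apply prod_le_prod _ key
    intro p hp
    have hpp : p.Prime := (mem_filter.1 hp).2
    have hp2 : (2 : ℝ) ≤ p := by exact_mod_cast hpp.two_le
    have hx1 : 1 / (p : ℝ) ≤ 1 := by rw [div_le_one (by linarith)]; linarith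
    apply mul_nonneg
    · split_ifs
      · exact hv0.le
      · norm_num
    · exact pow_nonneg (by linarith) _
  refine le_trans ?_ h3
  rw [prod_mul_distrib, prod_pow]
  have h4 : v ^ (2 * M) ≤ ∏ p ∈ pz z, (if p ≤ 2 * M then v else 1) := by
    rw [prod_ite, prod_const, prod_const_one, mul_one]
    apply pow_le_pow_of_le_one hv0.le hv1
    calc _ ≤ (Icc 1 (2 * M)).card := by
          apply card_le_card
          intro p hp
          rw [mem_filter] at hp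
          rw [mem_Icc]
          exact ⟨(mem_filter.1 hp.1).2.one_lt.le, hp.2⟩
      _ = 2 * M := by rw [Nat.card_Icc]; omega
  have h5 : 0 ≤ Vz z ^ (2 * M) := pow_nonneg (Vz_pos z).le _
  unfold Vz at h5 ⊢
  exact mul_le_mul_of_nonneg_right h4 h5

theorem evL (B δ : ℝ) (hδ : 0 < δ) : ∃ n0 : ℕ, ∀ H : ℕ, n0 ≤ H → B ≤ Real.log H ^ δ := by
  have h := ((tendsto_rpow_atTop hδ).comp (Real.tendsto_log_atTop.comp tendsto_natCast_atTop_atTop)).eventually
    (Filter.eventually_ge_atTop B)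
  obtain ⟨n0, h0⟩ := Filter.eventually_atTop.1 h
  exact ⟨n0, fun H hH => h0 H hH⟩

end T9h23.Nx
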