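import Pool.Agent.T9h23.Nx.N2

/-! # Polynomials near `X`: full patterns -/

set_option autoImplicit false

namespace T9h23.Nx

open Finset Polynomial
open Pool.Agent.H373R2.T7 Pool.Agent.T9h23.Cor Pool.Agent.T9h23.BH
open scoped Classical Nat

/-- the number of the `n ≤ x`, `n ≡ m` modulo `k !`, with primes at all the positions of `surv k m` -/
noncomputable def patt (W k m : ℕ) {d : ℕ} (a : Fin (d + 1) → ℤ) (x : ℕ) : ℕ :=
  ((Icc 1 x).filter (fun n : ℕ => n % k ! = m ∧ ∀ b ∈ surv k m, (val W a ((n : ℤ) + b)).natAbs.Prime)).card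

theorem pc_le_patt (W k m : ℕ) {d : ℕ} (a : Fin (d + 1) → ℤ) (hm : m < k !) (x x' : ℕ) (hx : k ! * x' + m ≤ x) :
    pc (r := 1) (dd := fun _ => d) (fun _ => GG k m) (fun _ => PP W d) (fun _ => mul' W a) x' ≤ patt W k m a x := by
  unfold pc patt
  apply card_le_card_of_injOn (fun n' : ℕ => k ! * n' + m)
  · intro n' hn'
    rw [mem_coe, mem_filter, mem_Icc] at hn'
    obtain ⟨⟨h1, h2⟩, h3⟩ := hn'
    rw [mem_coe, mem_filter, mem_Icc]
    dsimp only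
    have hk : 1 ≤ k ! := Nat.factorial_pos k
    have h4 : k ! * n' ≤ k ! * x' := Nat.mul_le_mul_left _ h2
    have h5 : 1 * 1 ≤ k ! * n' := Nat.mul_le_mul hk h1
    refine ⟨⟨by omega, by omega⟩, ?_, ?_⟩
    · rw [Nat.mul_add_mod, Nat.mod_eq_of_lt hm]
    · intro b hb
      have h6 := h3 0 (gg k m b) (by unfold GG; exact mem_image_of_mem _ hb)
      rw [eval_comp, gg_eval, hpol_val] at h6
      have e : (((k ! * n' + m : ℕ) : ℤ) + b) = (k ! : ℕ) * (n' : ℤ) + ((m + b : ℕ) : ℤ) := by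
        push_cast
        ring
      rw [e]
      exact h6
  · intro n _ n' _ h
    have hk : 0 < k ! := Nat.factorial_pos k
    have h1 : k ! * n + m = k ! * n' + m := h
    exact Nat.eq_of_mul_eq_mul_left hk (by omega)

theorem kk_eq (k m : ℕ) : kk (r := 1) (fun _ => GG k m) = (surv k m).card := by
  unfold kk
  rw [Fin.sum_univ_one, GG_card]

theorem gok (k m d : ℕ) (h : (surv k m).card ≤ d) : GOK (r := 1) (fun _ => d) (d + 1) (fun _ => GG k m) := by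
  refine ⟨fun _ => by rw [GG_card]; exact h, ?_⟩
  intro _ g hg
  unfold GG at hg
  rw [mem_image] at hg
  obtain ⟨b, _, rfl⟩ := hg
  unfold gg
  have hk : ((k ! : ℕ) : ℤ) ≠ 0 := by exact_mod_cast (Nat.factorial_pos k).ne'
  rw [natDegree_linear hk]
  omega

theorem smallG (k m d W H A : ℕ) (hm : m < k !) (hW : 1 ≤ W) (hH : 2 ≤ H) (hA : 1 ≤ A)
    (hL : 2 * (k ! : ℝ) ≤ Real.log ((W * H : ℕ) : ℝ)) :
    Small (r := 1) (W * H) A (d + 1) (fun _ => PP W d) (fun _ => GG k m) := by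
  have hkf : (1 : ℝ) ≤ (k ! : ℝ) := by exact_mod_cast Nat.factorial_pos k
  have hL1 : 1 ≤ Real.log ((W * H : ℕ) : ℝ) := by linarith
  have hWr : (1 : ℝ) ≤ W := by exact_mod_cast hW
  have hHr : (2 : ℝ) ≤ H := by exact_mod_cast hH
  have hLA : Real.log ((W * H : ℕ) : ℝ) ≤ Real.log ((W * H : ℕ) : ℝ) ^ A := le_self_pow₀ hL1 (by omega)
  refine ⟨fun _ => ?_, fun _ i => ?_, fun _ g hg i => ?_⟩
  · unfold PP
    refine natDegree_add_le_of_degree_le ?_ ?_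
    · rw [natDegree_X]; omega
    · refine (natDegree_C_mul_le _ _).trans ?_
      rw [natDegree_X_pow]
  · unfold PP
    rw [coeff_add, coeff_C_mul, coeff_X_pow, coeff_X]
    have h1 : |(((if 1 = i then (1 : ℤ) else 0) + (W : ℤ) * (if i = d + 1 then 1 else 0) : ℤ) : ℝ)| ≤ 1 + W := by
      push_cast
      refine (abs_add_le _ _).trans ?_
      apply add_le_add
      · split_ifs <;> simp
      · split_ifs
        · rw [mul_one, abs_of_nonneg (by linarith)]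
        · rw [mul_zero, abs_zero]; linarith
    refine h1.trans ?_
    have h2 : (1 : ℝ) + W ≤ ((W * H : ℕ) : ℝ) := by
      push_cast
      nlinarith
    have h3 : (0 : ℝ) ≤ ((W * H : ℕ) : ℝ) := Nat.cast_nonneg _
    nlinarith
  · unfold GG at hg
    rw [mem_image] at hg
    obtain ⟨b, hb, rfl⟩ := hg
    have hb1 : b ≤ k := by
      unfold surv at hb
      rw [mem_filter, mem_Icc] at hb
      exact hb.1.2
    have hkk : k ≤ k ! := Nat.self_le_factorial k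
    have hmb : ((m + b : ℕ) : ℝ) ≤ 2 * (k ! : ℝ) := by
      have : m + b ≤ 2 * k ! := by omega
      exact_mod_cast this
    unfold gg
    rw [coeff_add, coeff_C_mul, coeff_X, coeff_C]
    refine le_trans ?_ (hL.trans hLA)
    rcases Nat.eq_zero_or_pos i with h | h
    · subst h
      rw [if_neg (by omega), if_pos rfl, mul_zero, zero_add]
      rw [Int.cast_natCast, abs_of_nonneg (Nat.cast_nonneg _)]
      exact hmb
    · rw [if_neg (show ¬ i = 0 by omega), add_zero]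
      split_ifs
      · rw [mul_one, Int.cast_natCast, abs_of_nonneg (Nat.cast_nonneg _)]
        linarith
      · rw [mul_zero, Int.cast_zero, abs_zero]
        linarith

/-- the analytic part -/
theorem core (k m W : ℕ) {d : ℕ} (hd : 1 ≤ d) (a : Fin (d + 1) → ℤ) (hm : m < k !)
    (hW : ∀ p : ℕ, p.Prime → p ≤ (d + 1) * k → p ∣ W) (M : ℕ) (hM : M = (d + 1) * k + 1)
    (L L' ε ε1 : ℝ) (A A' H' : ℕ) (hL' : L' = Real.log H') (hL1 : 1 ≤ L) (hLL : L ≤ L') (hLL2 : L' ≤ 2 * L)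
    (hε1 : 0 < ε1) (hε12 : ε1 ≤ 1 / 2) (hA' : A ≤ A') (hA1 : 1 ≤ A')
    (hB4 : 4 ≤ L) (hVz : ∀ z : ℕ, 1 ≤ z → (z : ℝ) ≤ L' ^ A' → (Vz z)⁻¹ ≤ L' ^ (ε1 / (2 * M)))
    (hB1 : 2 ^ ((surv k m).card + ε1) * (2 * (k ! : ℝ)) ≤ L ^ (ε - ε1))
    (hB3 : 4 * (k ! : ℝ) ≤ L ^ ((surv k m).card + ε))
    (hB2 : 2 ^ ((surv k m).card + 2 * ε1) * (2 * (2 * (k ! : ℝ)) * (2 * (M : ℝ)) ^ (2 * M)) ≤ L ^ (ε - 2 * ε1))
    (hC : Concl (r := 1) (dd := fun _ => d) H' A' ε1 (L' ^ (((surv k m).card : ℝ) + ε1)) (fun _ => GG k m) (fun _ => PP W d)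
      (fun _ => mul' W a)) (x : ℕ) (hx1 : L ^ (((surv k m).card : ℝ) + ε) ≤ x) (hx2 : (x : ℝ) ≤ L ^ A) :
    (x : ℝ) / L ^ (((surv k m).card : ℝ) + ε) ≤ patt W k m a x := by
  obtain ⟨s, hs⟩ : ∃ s : ℕ, s = (surv k m).card := ⟨_, rfl⟩
  rw [← hs] at hB1 hB2 hB3 hC hx1 ⊢
  have hL0 : 0 < L := by linarith
  have hL'0 : 0 < L' := by linarith
  have hL'1 : 1 ≤ L' := by linarith
  have hkf : (1 : ℝ) ≤ (k ! : ℝ) := by exact_mod_cast Nat.factorial_pos k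
  have hkf0 : (0 : ℝ) < (k ! : ℝ) := by linarith
  have hMr : (1 : ℝ) ≤ M := by rw [hM]; push_cast; nlinarith [Nat.zero_le d, (Nat.cast_nonneg d : (0 : ℝ) ≤ d), (Nat.cast_nonneg k : (0 : ℝ) ≤ k)]
  -- the argument
  obtain ⟨x', hx'⟩ : ∃ x' : ℕ, x' = (x - m) / k ! := ⟨_, rfl⟩
  have hxk : 4 * (k ! : ℝ) ≤ x := hB3.trans hx1
  have hxk' : 4 * k ! ≤ x := by exact_mod_cast hxk
  have hxm : k ! * x' + m ≤ x := by
    have h1 : k ! * x' ≤ x - m := by rw [hx']; exact Nat.mul_div_le _ _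
    omega
  have hx'low : (x : ℝ) / (2 * (k ! : ℝ)) ≤ x' := by
    rw [div_le_iff₀ (by positivity)]
    have h1 : x - m < k ! * x' + k ! := by
      rw [hx']
      exact Nat.lt_mul_div_succ (x - m) (Nat.factorial_pos k) |>.trans_eq (by ring)
    have h2 : x ≤ x' * (2 * k !) := by
      have h3 : x < k ! * x' + 2 * k ! := by omega
      have h4 : x' * (2 * k !) = 2 * (k ! * x') := by ring
      omega
    exact_mod_cast h2
  have hx'x : (x' : ℝ) ≤ x := by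
    have : x' ≤ x := by
      rw [hx']
      exact (Nat.div_le_self _ _).trans (Nat.sub_le _ _)
    exact_mod_cast this
  -- the lower end
  have hup : ∀ e : ℝ, 0 ≤ e → L' ^ e ≤ 2 ^ e * L ^ e := by
    intro e he
    rw [← Real.mul_rpow (by norm_num) hL0.le]
    exact Real.rpow_le_rpow hL'0.le hLL2 he
  have hx0 : L' ^ ((s : ℝ) + ε1) ≤ x' := by
    refine le_trans ?_ hx'low
    rw [le_div_iff₀ (by positivity)]
    calc L' ^ ((s : ℝ) + ε1) * (2 * (k ! : ℝ)) ≤ (2 ^ ((s : ℝ) + ε1) * L ^ ((s : ℝ) + ε1)) * (2 * (k ! : ℝ)) := by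
          gcongr
          exact hup _ (by positivity)
      _ = (2 ^ ((s : ℝ) + ε1) * (2 * (k ! : ℝ))) * L ^ ((s : ℝ) + ε1) := by ring
      _ ≤ L ^ (ε - ε1) * L ^ ((s : ℝ) + ε1) := by gcongr
      _ = L ^ ((s : ℝ) + ε) := by rw [← Real.rpow_add hL0]; congr 1; ring
      _ ≤ x := hx1
  obtain ⟨T, hT⟩ : ∃ T : ℝ, T = L' ^ A' := ⟨_, rfl⟩
  have hT4 : 4 ≤ T := by
    rw [hT]
    calc (4 : ℝ) ≤ L' := by linarith
      _ ≤ L' ^ A' := le_self_pow₀ hL'1 (by omega)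
  have hx'T : (x' : ℝ) ≤ T := by
    rw [hT]
    calc (x' : ℝ) ≤ L ^ A := hx'x.trans hx2
      _ ≤ L' ^ A := by gcongr
      _ ≤ L' ^ A' := pow_le_pow_right₀ hL'1 hA'
  obtain ⟨z, hz⟩ : ∃ z : ℕ, z = ⌊T⌋₊ := ⟨_, rfl⟩
  have hzT : (z : ℝ) ≤ T := by rw [hz]; exact Nat.floor_le (by linarith)
  have hzT1 : T - 1 < z := by
    rw [hz]
    have := Nat.lt_floor_add_one T
    linarith
  have hz1 : 1 ≤ z := by
    rw [hz]
    exact Nat.le_floor (by push_cast; linarith)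
  have hx01 : 1 ≤ L' ^ ((s : ℝ) + ε1) := Real.one_le_rpow hL'1 (by positivity)
  have hzlow : (L' ^ ((s : ℝ) + ε1)) ^ ε1 ≤ z := by
    have h1 : (L' ^ ((s : ℝ) + ε1)) ^ ε1 ≤ T ^ (1 / 2 : ℝ) := by
      calc (L' ^ ((s : ℝ) + ε1)) ^ ε1 ≤ T ^ ε1 := Real.rpow_le_rpow (by linarith) (hx0.trans hx'T) hε1.le
        _ ≤ T ^ (1 / 2 : ℝ) := Real.rpow_le_rpow_of_exponent_le (by linarith) hε12
    have h2 : T ^ (1 / 2 : ℝ) ≤ T / 2 := by
      rw [← Real.sqrt_eq_rpow, Real.sqrt_le_left (by linarith)]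
      nlinarith
    linarith
  obtain ⟨hc, -⟩ := hC x' hx0 (by rw [← hL', ← hT]; exact hx'T) z hzlow (by rw [← hL', ← hT]; exact hzT)
  rw [qq_eq, kk_eq, ← hs, ← hL'] at hc
  -- the constant
  obtain ⟨CCv, hCC⟩ : ∃ c : ℝ, c = Pool.Agent.T9h23.BH.CC (QQ W k m a) s z := ⟨_, rfl⟩
  rw [← hCC] at hc
  obtain ⟨V, hV⟩ : ∃ V : ℝ, V = Vz z := ⟨_, rfl⟩
  have hV0 : 0 < V := by rw [hV]; exact Vz_pos z
  have hV1 : V ≤ 1 := by rw [hV]; exact Vz_le_one z
  have hCC1 : ((2 * (M : ℝ))⁻¹) ^ (2 * M) * L' ^ (-ε1) ≤ CCv := by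
    have h1 := Dn_low (QQ W k m a) M (by omega) (om_lt W k m hd a hW)
      (fun p hp => (om_le' W k m hd a hW p hp).trans (by omega)) z
    rw [← hV] at h1
    have h2 : L' ^ (-ε1) ≤ V ^ (2 * M) := by
      have h3 := hVz z hz1 (by rw [← hT]; exact hzT)
      rw [← hV] at h3
      have h4 : (V⁻¹) ^ (2 * M) ≤ L' ^ ε1 := by
        calc (V⁻¹) ^ (2 * M) ≤ (L' ^ (ε1 / (2 * M))) ^ (2 * M) := by gcongr
          _ = L' ^ ε1 := by
              rw [← Real.rpow_natCast, ← Real.rpow_mul hL'0.le]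
              congr 1
              push_cast
              field_simp
      rw [Real.rpow_neg hL'0.le]
      rw [inv_pow] at h4
      have h5 : 0 < V ^ (2 * M) := by positivity
      rw [inv_le_comm₀ (by positivity) h5]
      exact h4
    have h3 : Dn (QQ W k m a) z ≤ CCv := by
      rw [hCC]
      unfold Pool.Agent.T9h23.BH.CC
      rw [← hV]
      apply le_mul_of_one_le_right (Dn_nonneg _ _)
      exact one_le_pow₀ ((one_le_inv₀ hV0).2 hV1)
    calc ((2 * (M : ℝ))⁻¹) ^ (2 * M) * L' ^ (-ε1) ≤ ((2 * (M : ℝ))⁻¹) ^ (2 * M) * V ^ (2 * M) := by gcongr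
      _ ≤ Dn (QQ W k m a) z := h1
      _ ≤ CCv := h3
  obtain ⟨Y, hY⟩ : ∃ Y : ℝ, Y = CCv * (x' / L' ^ s) := ⟨_, rfl⟩
  rw [← hY] at hc
  have hpc : Y / 2 ≤ (patt W k m a x : ℝ) := by
    have h1 := pc_le_patt W k m a hm x x' hxm
    have h2 : (pc (r := 1) (dd := fun _ => d) (fun _ => GG k m) (fun _ => PP W d) (fun _ => mul' W a) x' : ℝ) ≤
        (patt W k m a x : ℝ) := by exact_mod_cast h1
    have h3 := (abs_le.1 hc).1
    have hY0 : 0 ≤ Y := by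
      have h4 := (abs_nonneg _).trans hc
      by_contra hcon
      push Not at hcon
      nlinarith
    nlinarith
  refine le_trans ?_ hpc
  rw [hY]
  have hpos : 0 < ((2 * (M : ℝ))⁻¹) ^ (2 * M) := by positivity
  have hLs : L' ^ s = L' ^ (s : ℝ) := (Real.rpow_natCast _ _).symm
  have hstep : (x : ℝ) / L ^ ((s : ℝ) + ε) ≤
      (((2 * (M : ℝ))⁻¹) ^ (2 * M) * L' ^ (-ε1)) * ((x / (2 * (k ! : ℝ))) / L' ^ s) / 2 := by
    have hxpos : (0 : ℝ) < x := by linarith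
    rw [hLs]
    have e1 : (((2 * (M : ℝ))⁻¹) ^ (2 * M) * L' ^ (-ε1)) * ((x / (2 * (k ! : ℝ))) / L' ^ (s : ℝ)) / 2 =
        x / ((2 * (2 * (k ! : ℝ)) * (2 * (M : ℝ)) ^ (2 * M)) * L' ^ ((s : ℝ) + ε1)) := by
      rw [Real.rpow_add hL'0, Real.rpow_neg hL'0.le, inv_pow]
      have h1 : 0 < L' ^ (s : ℝ) := by positivity
      have h2 : 0 < L' ^ ε1 := by positivity
      field_simp
    rw [e1]
    apply div_le_div_of_nonneg_left hxpos.le (by positivity)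
    calc (2 * (2 * (k ! : ℝ)) * (2 * (M : ℝ)) ^ (2 * M)) * L' ^ ((s : ℝ) + ε1)
        ≤ (2 * (2 * (k ! : ℝ)) * (2 * (M : ℝ)) ^ (2 * M)) * L' ^ ((s : ℝ) + 2 * ε1) := by
          apply mul_le_mul_of_nonneg_left _ (by positivity)
          exact Real.rpow_le_rpow_of_exponent_le hL'1 (by linarith)
      _ ≤ (2 * (2 * (k ! : ℝ)) * (2 * (M : ℝ)) ^ (2 * M)) * (2 ^ ((s : ℝ) + 2 * ε1) * L ^ ((s : ℝ) + 2 * ε1)) := by
          gcongr
          exact hup _ (by positivity)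
      _ = (2 ^ ((s : ℝ) + 2 * ε1) * (2 * (2 * (k ! : ℝ)) * (2 * (M : ℝ)) ^ (2 * M))) * L ^ ((s : ℝ) + 2 * ε1) := by ring
      _ ≤ L ^ (ε - 2 * ε1) * L ^ ((s : ℝ) + 2 * ε1) := by gcongr
      _ = L ^ ((s : ℝ) + ε) := by rw [← Real.rpow_add hL0]; congr 1; ring
  refine hstep.trans ?_
  have h1 : 0 < L' ^ s := by positivity
  have h2 : x / (2 * (k ! : ℝ)) / L' ^ s ≤ x' / L' ^ s := div_le_div_of_nonneg_right hx'low h1.le
  have h3 : 0 ≤ x / (2 * (k ! : ℝ)) / L' ^ s := by positivity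
  have h4 : 0 ≤ CCv := by
    rw [hCC]
    exact CC_nonneg _ _ _
  exact div_le_div_of_nonneg_right (mul_le_mul hCC1 h2 h3 h4) (by norm_num)

end T9h23.Nx
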