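import Pool.Agent.T9h23.Nx.N3

/-! # Polynomials near `X`: the exceptional polynomials -/

set_option autoImplicit false

namespace T9h23.Nx

open Finset Polynomial
open Pool.Agent.H373R2.T7 Pool.Agent.T9h23.Cor Pool.Agent.T9h23.BH
open scoped Classical Nat

/-- the conclusion -/
def Fine (k W : ℕ) {d : ℕ} (ε : ℝ) (A H : ℕ) (a : Fin (d + 1) → ℤ) : Prop :=
  ∀ m < k !, ∀ x : ℕ, Real.log H ^ (((surv k m).card : ℝ) + ε) ≤ x → (x : ℝ) ≤ Real.log H ^ A →
    (x : ℝ) / Real.log H ^ (((surv k m).card : ℝ) + ε) ≤ patt W k m a x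

theorem cnt (k d W : ℕ) (hd : 1 ≤ d) (hW1 : 1 ≤ W) (hW : ∀ p : ℕ, p.Prime → p ≤ (d + 1) * k → p ∣ W)
    (hsd : ∀ m, (surv k m).card ≤ d) (ε : ℝ) (hε : 0 < ε) : ∃ c : ℝ, 0 < c ∧ ∀ A : ℕ, ∃ H₀ : ℕ, ∀ H : ℕ, H₀ ≤ H →
    (((Box (d + 1) H).filter (fun a => ¬ Fine k W ε A H a)).card : ℝ) ≤ (2 * (H : ℝ) + 1) ^ (d + 1) / Real.log H ^ c := by
  obtain ⟨ε1, hε1d⟩ : ∃ e : ℝ, e = min ε 1 / 4 := ⟨_, rfl⟩
  have hε1 : 0 < ε1 := by rw [hε1d]; positivity
  have hε1a : 4 * ε1 ≤ ε := by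
    have := min_le_left ε 1
    rw [hε1d]; linarith
  have hε1b : 4 * ε1 ≤ 1 := by
    have := min_le_right ε 1
    rw [hε1d]; linarith
  obtain ⟨c0, hc0, hfin⟩ := fin 1 (fun _ => d) (d + 1) (fun _ => hd) ε1 hε1
  refine ⟨ε1 * c0 / 2, by positivity, fun A => ?_⟩
  obtain ⟨M, hM⟩ : ∃ M : ℕ, M = (d + 1) * k + 1 := ⟨_, rfl⟩
  have hMr : (1 : ℝ) ≤ M := by
    have : 1 ≤ M := by rw [hM]; omega
    exact_mod_cast this
  obtain ⟨H0, hH0⟩ := hfin (A + 1)
  obtain ⟨H1, hH1⟩ := Vz_small (A + 1) (ε1 / (2 * M)) (by positivity)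
  obtain ⟨H2, hH2⟩ := evL (2 ^ ((k : ℝ) + 1) * (2 * (k ! : ℝ))) (ε - ε1) (by linarith)
  obtain ⟨H3, hH3⟩ := evL (2 ^ ((k : ℝ) + 1) * (2 * (2 * (k ! : ℝ)) * (2 * (M : ℝ)) ^ (2 * M))) (ε - 2 * ε1) (by linarith)
  obtain ⟨H4, hH4⟩ := evL (4 * (k ! : ℝ)) ε hε
  obtain ⟨H5, hH5⟩ := evL 4 1 one_pos
  obtain ⟨H6, hH6⟩ := evL ((k ! : ℝ) * (W : ℝ) ^ (d + 1)) (ε1 * c0 / 2) (by positivity)
  obtain ⟨H7, hH7⟩ := evL (2 * (k ! : ℝ)) 1 one_pos
  refine ⟨max (max (max H0 H1) (max H2 H3)) (max (max (max H4 H5) (max H6 H7)) (max 2 W)), fun H hH => ?_⟩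
  simp only [max_le_iff] at hH
  obtain ⟨⟨⟨g0, g1⟩, g2, g3⟩, ⟨⟨g4, g5⟩, g6, g7⟩, g8, g9⟩ := hH
  obtain ⟨L, hL⟩ : ∃ L : ℝ, L = Real.log H := ⟨_, rfl⟩
  obtain ⟨H', hH'⟩ : ∃ H' : ℕ, H' = W * H := ⟨_, rfl⟩
  obtain ⟨L', hL'⟩ : ∃ L' : ℝ, L' = Real.log H' := ⟨_, rfl⟩
  have hWr : (1 : ℝ) ≤ W := by exact_mod_cast hW1
  have hHr : (2 : ℝ) ≤ H := by exact_mod_cast g8
  have hHW : (W : ℝ) ≤ H := by exact_mod_cast g9
  have hHH' : H ≤ H' := by rw [hH']; exact Nat.le_mul_of_pos_left H hW1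
  have k2 := hH2 H g2
  have k3 := hH3 H g3
  have k4 := hH4 H g4
  have k5 := hH5 H g5
  have k6 := hH6 H g6
  have k7 := hH7 H g7
  rw [Real.rpow_one] at k5 k7
  rw [← hL] at k2 k3 k4 k5 k6 k7 ⊢
  have hL1 : 1 ≤ L := by linarith
  have hL0 : 0 < L := by linarith
  have hLL : L ≤ L' := by
    rw [hL, hL', hH']
    push_cast
    exact Real.log_le_log (by linarith) (le_mul_of_one_le_left (by linarith) hWr)
  have hLL2 : L' ≤ 2 * L := by
    rw [hL', hH', hL]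
    push_cast
    rw [Real.log_mul (by positivity) (by positivity)]
    have := Real.log_le_log (by linarith) hHW
    linarith
  have hL'1 : 1 ≤ L' := hL1.trans hLL
  have hVz : ∀ z : ℕ, 1 ≤ z → (z : ℝ) ≤ L' ^ (A + 1) → (Vz z)⁻¹ ≤ L' ^ (ε1 / (2 * M)) := by
    intro z hz1 hz2
    rw [hL'] at hz2 ⊢
    exact hH1 H' (g1.trans hHH') z hz1 hz2
  obtain ⟨N, hN⟩ : ∃ N : ℝ, N = (2 * (H : ℝ) + 1) ^ (d + 1) := ⟨_, rfl⟩
  have hN0 : 0 < N := by rw [hN]; positivity
  set E : ℕ → Finset (Fin (d + 1) → ℤ) := fun m => (Box (d + 1) H).filter (fun a =>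
    ¬ Concl (r := 1) (dd := fun _ => d) H' (A + 1) ε1 (L' ^ (((surv k m).card : ℝ) + ε1)) (fun _ => GG k m)
      (fun _ => PP W d) (fun _ => mul' W a)) with hE
  have hsub : (Box (d + 1) H).filter (fun a => ¬ Fine k W ε A H a) ⊆ (range (k !)).biUnion E := by
    intro a ha
    rw [mem_filter] at ha
    obtain ⟨ha1, ha2⟩ := ha
    rw [mem_biUnion]
    by_contra hcon
    push Not at hcon
    apply ha2
    intro m hm x hx1 hx2
    have h1 := hcon m (mem_range.2 hm)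
    rw [hE] at h1
    dsimp only at h1
    rw [mem_filter, not_and, not_not] at h1
    have hC := h1 ha1
    have hs := surv_card_le k m
    have hsr : (((surv k m).card : ℕ) : ℝ) ≤ k := by exact_mod_cast hs
    rw [← hL] at hx1 hx2 ⊢
    refine core k m W hd a hm hW M hM L L' ε ε1 A (A + 1) H' hL' hL1 hLL hLL2 hε1 (by linarith) (by omega) (by omega)
      k5 hVz ?_ ?_ ?_ hC x hx1 hx2
    · refine le_trans ?_ k2
      gcongr
      · norm_num
      · linarith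
    · refine k4.trans (Real.rpow_le_rpow_of_exponent_le hL1 ?_)
      have : (0 : ℝ) ≤ (((surv k m).card : ℕ) : ℝ) := Nat.cast_nonneg _
      linarith
    · refine le_trans ?_ k3
      gcongr
      · norm_num
      · linarith
  have hEm : ∀ m ∈ range (k !), ((E m).card : ℝ) ≤ (W : ℝ) ^ (d + 1) * N / L ^ (ε1 * c0) := by
    intro m hm
    rw [mem_range] at hm
    have h1 := hH0 H' (g0.trans hHH') (fun _ => PP W d) (fun _ => GG k m) (gok k m d (hsd m)) (by
      rw [hH']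
      refine smallG k m d W H (A + 1) hm hW1 g8 (by omega) ?_
      rw [← hH', ← hL']
      exact k7.trans hLL) (L' ^ (((surv k m).card : ℝ) + ε1)) (by rw [kk_eq, ← hL'])
    have h2 : ((E m).card : ℝ) ≤ (((Om (r := 1) (fun _ => d) H').filter (fun f =>
        ¬ Concl (r := 1) (dd := fun _ => d) H' (A + 1) ε1 (L' ^ (((surv k m).card : ℝ) + ε1)) (fun _ => GG k m)
      (fun _ => PP W d) f)).card : ℝ) := by
      have h3 : (E m).card ≤ ((Om (r := 1) (fun _ => d) H').filter (fun f =>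
        ¬ Concl (r := 1) (dd := fun _ => d) H' (A + 1) ε1 (L' ^ (((surv k m).card : ℝ) + ε1)) (fun _ => GG k m)
      (fun _ => PP W d) f)).card := by
        apply card_le_card_of_injOn (fun a : Fin (d + 1) → ℤ => (fun _ : Fin 1 => mul' W a))
        · intro a ha
          rw [mem_coe, hE] at ha
          dsimp only at ha
          rw [mem_filter, mem_Box] at ha
          rw [mem_coe, mem_filter]
          refine ⟨?_, ha.2⟩
          unfold Om
          rw [Fintype.mem_piFinset]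
          intro _
          rw [mem_Box]
          intro i
          unfold mul'
          rw [abs_mul, hH']
          push_cast
          rw [abs_of_nonneg (by positivity : (0 : ℤ) ≤ W)]
          exact mul_le_mul_of_nonneg_left (ha.1 i) (by positivity)
        · intro a _ b _ hab
          have h4 := congrFun hab 0
          funext i
          have h5 := congrFun h4 i
          unfold mul' at h5
          have hW0 : (W : ℤ) ≠ 0 := by
            have : 0 < W := hW1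
            exact_mod_cast this.ne'
          exact mul_left_cancel₀ hW0 h5
      exact_mod_cast h3
    refine h2.trans (h1.trans ?_)
    have h3 : NN (r := 1) (fun _ => d) H' ≤ (W : ℝ) ^ (d + 1) * N := by
      unfold NN
      rw [Fin.prod_univ_one, hN, ← mul_pow, hH']
      push_cast
      gcongr
      nlinarith
    have h4 : L ^ (ε1 * c0) ≤ (L' ^ (((surv k m).card : ℝ) + ε1)) ^ c0 := by
      rw [Real.rpow_mul hL0.le]
      apply Real.rpow_le_rpow (by positivity) _ hc0.le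
      calc L ^ ε1 ≤ L' ^ ε1 := Real.rpow_le_rpow hL0.le hLL hε1.le
        _ ≤ L' ^ (((surv k m).card : ℝ) + ε1) := by
            apply Real.rpow_le_rpow_of_exponent_le hL'1
            have : (0 : ℝ) ≤ (((surv k m).card : ℕ) : ℝ) := Nat.cast_nonneg _
            linarith
    have h5 : 0 < L ^ (ε1 * c0) := by positivity
    exact div_le_div₀ (by positivity) h3 h5 h4
  have h1 : (((Box (d + 1) H).filter (fun a => ¬ Fine k W ε A H a)).card : ℝ) ≤
      ∑ m ∈ range (k !), ((E m).card : ℝ) := by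
    exact_mod_cast (card_le_card hsub).trans card_biUnion_le
  refine h1.trans ((Finset.sum_le_card_nsmul _ _ _ hEm).trans ?_)
  rw [card_range, nsmul_eq_mul, ← hN]
  have e1 : L ^ (ε1 * c0) = L ^ (ε1 * c0 / 2) * L ^ (ε1 * c0 / 2) := by
    rw [← Real.rpow_add hL0]; congr 1; ring
  have h5 : 0 < L ^ (ε1 * c0 / 2) := by positivity
  rw [e1]
  calc (k ! : ℝ) * ((W : ℝ) ^ (d + 1) * N / (L ^ (ε1 * c0 / 2) * L ^ (ε1 * c0 / 2)))
      = ((k ! : ℝ) * (W : ℝ) ^ (d + 1)) / L ^ (ε1 * c0 / 2) * (N / L ^ (ε1 * c0 / 2)) := by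
        field_simp
    _ ≤ 1 * (N / L ^ (ε1 * c0 / 2)) := by
        gcongr
        rw [div_le_one h5]
        exact k6
    _ = _ := one_mul _

end T9h23.Nx
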